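import Mathlib
import Pool.Agent.TH461.FGK.Two
import Pool.Agent.TH654.FC.Open
import Pool.Agent.H847R3.SuppC

/-!
A theorem of `TH461/FGK/Sup.lean` (which cannot be imported together with `U106/TR`: two theorems
of the library have the same name), and the consequence used here.

# Quantitative support and visits to open sets, every exponent `κ > κ₀`
-/

set_option autoImplicit false

open Set Filter Topology MeasureTheory

namespace Pool.Agent.U946.TD.FG

open Pool.Agent.H819 Pool.Agent.H847R3.XpXq Pool.Agent.TH461.FGK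

/-- **Quantitative support.** -/
theorem support2 {p q : ℕ} (hp : 2 ≤ p) (hq : 2 ≤ q)
    (hirr : Irrational (Real.log (p : ℝ) / Real.log (q : ℝ))) {s : ℝ} (hs2 : s < 2)
    (hs : Pool.Agent.TH461.FGK.Gr2 p q s) {U : Set TT} (hU : IsOpen U) (hne : U.Nonempty) :
    ∃ C : ℝ, 0 < C ∧
        ∀ μ : Measure TT, IsProbabilityMeasure μ →
          MeasurePreserving (fun x : TT => p • x) μ μ →
          MeasurePreserving (fun x : TT => q • x) μ μ →
          ∀ t : ℝ, 1 ≤ t →
            μ.real {x : TT | ∀ k ∈ KU p q U, Real.exp (-t) ≤ dist x k} ≤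
              C * t ^ (2 - s) * μ.real U := by
  obtain ⟨r, hr, C, hC⟩ := Pool.Agent.TH461.FGK.nonconc2 hp hq hs
  set κ : ℝ := 2 - s with hκ
  have hκ0 : 0 < κ := by rw [hκ]; linarith
  obtain ⟨d, hd, hdK⟩ := exists_den hp (KU_finite hp hq hirr hU hne) (KU_inv p q U)
  have hd0 : (0 : ℝ) < d := by exact_mod_cast hd
  set c0 : ℝ := min (r / d) (1 / (2 * d)) with hc0
  have hc0' : 0 < c0 := lt_min (by positivity) (by positivity)
  obtain ⟨n, hn⟩ := hit (p := p) (q := q) hU hc0'
  refine ⟨(|C| + 1) * (n + 1), by positivity, fun μ hμ h1 h2 t ht => ?_⟩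
  set E : Set TT := {x : TT | ∀ k ∈ KU p q U, c0 ≤ dist x k} with hE
  have hEn := hn μ hμ h1 h2
  have hmd : Measurable fun x : TT => d • x := (continuous_const_smul d).measurable
  have hν : IsProbabilityMeasure (μ.map fun x : TT => d • x) :=
    Measure.isProbabilityMeasure_map hmd.aemeasurable
  have key := hC _ hν (map_inv h1) (map_inv h2) t ht
  have hm1 : MeasurableSet {x : TT | Real.exp (-t) ≤ ‖x‖} :=
    (isClosed_le continuous_const continuous_norm).measurableSet
  have hm2 : MeasurableSet {x : TT | r ≤ ‖x‖} :=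
    (isClosed_le continuous_const continuous_norm).measurableSet
  rw [map_measureReal_apply hmd hm1, map_measureReal_apply hmd hm2] at key
  -- far from the torsion points
  have hsub2 : (fun x : TT => d • x) ⁻¹' {x : TT | r ≤ ‖x‖} ⊆ E := by
    intro x hx k hk
    by_contra hcon
    push Not at hcon
    have h3 : dist x k < r / d := lt_of_lt_of_le hcon (min_le_left _ _)
    have h4 : d • x = d • (x - k) := by rw [nsmul_sub, hdK k hk, sub_zero]
    have h5 : r ≤ ‖d • x‖ := hx
    rw [h4] at h5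
    have h6 := norm_smul_le d (x - k)
    rw [dist_eq_norm] at h3
    have h7 : (d : ℝ) * ‖x - k‖ < d * (r / d) := mul_lt_mul_of_pos_left h3 hd0
    rw [mul_div_cancel₀ _ hd0.ne'] at h7
    linarith
  have hsub1 : {x : TT | ∀ k ∈ KU p q U, Real.exp (-t) ≤ dist x k} ⊆
      ((fun x : TT => d • x) ⁻¹' {x : TT | Real.exp (-t) ≤ ‖x‖}) ∪ E := by
    intro x hx
    by_cases h3 : Real.exp (-t) ≤ ‖d • x‖
    · exact Or.inl h3
    right
    push Not at h3
    obtain ⟨s, hs, hxs⟩ := near_torsion hd x
    have hexp : Real.exp (-t) ≤ 1 / 2 := by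
      have e1 : Real.exp (-t) ≤ Real.exp (-1) := Real.exp_le_exp.2 (by linarith)
      have e2 : Real.exp (-1) < 1 / 2 := by
        have := Real.exp_neg_one_lt_d9
        linarith
      linarith
    have hxs2 : dist x s < Real.exp (-t) / d := lt_of_le_of_lt hxs (by gcongr)
    have hd1 : (1 : ℝ) ≤ d := by exact_mod_cast hd
    have hle : Real.exp (-t) / d ≤ Real.exp (-t) := div_le_self (Real.exp_pos _).le hd1
    intro k hk
    by_cases hsk : s = k
    · subst hsk
      have := hx s hk
      linarith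
    · have h4 : 1 / (d : ℝ) ≤ ‖s - k‖ := by
        apply torsion_norm hd _ (sub_ne_zero.2 hsk)
        rw [nsmul_sub, hs, hdK k hk, sub_zero]
      rw [← dist_eq_norm] at h4
      have h5 : dist s k ≤ dist x s + dist x k := dist_triangle_left _ _ _
      have h6 : Real.exp (-t) / d ≤ (1 / 2) / d := by gcongr
      have h7 : c0 ≤ 1 / (2 * d) := min_le_right _ _
      have h8 : 1 / (2 * (d : ℝ)) = (1 / 2) / d := by field_simp
      have h9 : 1 / (d : ℝ) = (1 / 2) / d + (1 / 2) / d := by field_simp; norm_num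
      linarith
  have hE1 : μ.real ((fun x : TT => d • x) ⁻¹' {x : TT | r ≤ ‖x‖}) ≤ μ.real E :=
    measureReal_mono hsub2 (measure_ne_top μ _)
  have hU0 : 0 ≤ μ.real U := measureReal_nonneg
  have hE0 : 0 ≤ μ.real E := measureReal_nonneg
  have htk : 1 ≤ t ^ κ := Real.one_le_rpow ht hκ0.le
  calc μ.real {x : TT | ∀ k ∈ KU p q U, Real.exp (-t) ≤ dist x k}
      ≤ μ.real (((fun x : TT => d • x) ⁻¹' {x : TT | Real.exp (-t) ≤ ‖x‖}) ∪ E) :=
        measureReal_mono hsub1 (measure_ne_top μ _)
    _ ≤ μ.real ((fun x : TT => d • x) ⁻¹' {x : TT | Real.exp (-t) ≤ ‖x‖}) + μ.real E :=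
        measureReal_union_le _ _
    _ ≤ C * t ^ κ * μ.real ((fun x : TT => d • x) ⁻¹' {x : TT | r ≤ ‖x‖}) + μ.real E := by
        linarith
    _ ≤ |C| * t ^ κ * μ.real E + t ^ κ * μ.real E := by
        have a1 : C * t ^ κ * μ.real ((fun x : TT => d • x) ⁻¹' {x : TT | r ≤ ‖x‖}) ≤
            |C| * t ^ κ * μ.real ((fun x : TT => d • x) ⁻¹' {x : TT | r ≤ ‖x‖}) := by
          have := le_abs_self C
          gcongr
        have a2 : |C| * t ^ κ * μ.real ((fun x : TT => d • x) ⁻¹' {x : TT | r ≤ ‖x‖}) ≤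
            |C| * t ^ κ * μ.real E := by gcongr
        have a3 : μ.real E ≤ t ^ κ * μ.real E := le_mul_of_one_le_left hE0 htk
        linarith
    _ = (|C| + 1) * t ^ κ * μ.real E := by ring
    _ ≤ (|C| + 1) * t ^ κ * (n * μ.real U) := by gcongr
    _ ≤ (|C| + 1) * t ^ κ * ((n + 1) * μ.real U) := by
        gcongr
        linarith
    _ = (|C| + 1) * (n + 1) * t ^ κ * μ.real U := by ring


end Pool.Agent.U946.TD.FG
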