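import Pool.Agent.U946.TD.Tr

set_option autoImplicit false

open MeasureTheory Filter Topology Set

namespace Pool.Agent.U946.TD

open Pool.Agent.U106.FC Pool.Agent.U106.TR
open Pool.Agent.U946.TD.NR (Spread Thin fourier_of)

lemma rigid_co {μ : Measure UnitAddCircle} [IsProbabilityMeasure μ]
    (h : Thin μ (fun k => k)) :
    ∃ m : ℕ → ℕ, StrictMono m ∧ ∀ j : ℕ → ℤ,
      (∀ k, |(j k : ℝ)| ≤ Real.exp (Real.log (m k) ^ k)) →
      ∀ a b : ℤ, Tendsto (fun k => co μ (b + j k * m k * a)) atTop (𝓝 (co μ b)) := by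
  obtain ⟨m, hm, hae⟩ := h
  refine ⟨fun k => m (k + 1), fun a b hab => hm (by omega), fun j hj a b => ?_⟩
  have hL : Tendsto (fun k : ℕ => Real.log (m (k + 1))) atTop atTop :=
    Real.tendsto_log_atTop.comp (tendsto_natCast_atTop_atTop.comp
      (hm.tendsto_atTop.comp (tendsto_add_atTop_nat 1)))
  have hpt : ∀ᵐ x ∂μ, Tendsto (fun k => (fourier (b + j k * m (k + 1) * a) x : ℂ)) atTop
      (𝓝 (fourier b x : ℂ)) := by
    filter_upwards [hae] with x hx
    have hx' := (tendsto_add_atTop_nat 1).eventually hx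
    have h1 : Tendsto (fun k => (j k * m (k + 1) * a) • x) atTop (𝓝 (0 : UnitAddCircle)) := by
      have h2 : Tendsto (fun k : ℕ => |(a : ℝ)| * Real.exp (-(Real.log (m (k + 1)) - 1))) atTop
          (𝓝 0) := by
        have h3 : Tendsto (fun k : ℕ => Real.exp (-(Real.log (m (k + 1)) - 1))) atTop (𝓝 0) :=
          Real.tendsto_exp_neg_atTop_nhds_zero.comp (tendsto_atTop_add_const_right _ (-1) hL)
        simpa using h3.const_mul |(a : ℝ)|
      refine squeeze_zero_norm' ?_ h2
      filter_upwards [hx', hL.eventually_ge_atTop 1] with k hk hk1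
      have e1 : (j k * m (k + 1) * a) • x = (a * j k) • (m (k + 1) • x) := by
        rw [← natCast_zsmul, ← mul_smul]
        congr 1
        ring
      have e2 : ‖(a * j k) • (m (k + 1) • x)‖ ≤ ‖a * j k‖ * ‖m (k + 1) • x‖ := norm_zsmul_le _ _
      have e3 : ‖a * j k‖ = |(a : ℝ)| * |(j k : ℝ)| := by
        rw [Int.norm_eq_abs]
        push_cast
        rw [abs_mul]
      rw [e1]
      refine e2.trans ?_
      rw [e3, mul_assoc]
      refine mul_le_mul_of_nonneg_left ?_ (abs_nonneg _)
      have e4 : Real.log (m (k + 1)) ^ (((k + 1 : ℕ) : ℝ)) = Real.log (m (k + 1)) ^ (k + 1) :=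
        Real.rpow_natCast _ _
      have hk' : ‖m (k + 1) • x‖ ≤ Real.exp (-(Real.log (m (k + 1)) ^ (k + 1))) := by
        rw [← e4]
        exact hk
      calc |(j k : ℝ)| * ‖m (k + 1) • x‖
          ≤ Real.exp (Real.log (m (k + 1)) ^ k) * Real.exp (-(Real.log (m (k + 1)) ^ (k + 1))) :=
            mul_le_mul (hj k) hk' (norm_nonneg _) (Real.exp_pos _).le
        _ = Real.exp (-(Real.log (m (k + 1)) ^ k * (Real.log (m (k + 1)) - 1))) := by
            rw [← Real.exp_add]
            congr 1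
            ring
        _ ≤ Real.exp (-(Real.log (m (k + 1)) - 1)) := by
            apply Real.exp_le_exp.2
            have e5 : 1 ≤ Real.log (m (k + 1)) ^ k := one_le_pow₀ hk1
            nlinarith
    have h2 : Tendsto (fun k => (fourier 1 ((j k * m (k + 1) * a) • x) : ℂ)) atTop
        (𝓝 (fourier 1 (0 : UnitAddCircle) : ℂ)) :=
      ((map_continuous (fourier 1)).tendsto (0 : UnitAddCircle)).comp h1
    have h3 : Tendsto (fun k => (fourier b x : ℂ) *
        (fourier 1 ((j k * m (k + 1) * a) • x) : ℂ)) atTop (𝓝 ((fourier b x : ℂ) *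
        (fourier 1 (0 : UnitAddCircle) : ℂ))) := h2.const_mul _
    rw [fourier_eval_zero, mul_one] at h3
    refine h3.congr fun k => ?_
    rw [fourier_add]
    congr 1
    rw [fourier_apply, fourier_apply, one_smul]
  refine tendsto_integral_of_dominated_convergence (fun _ => (1 : ℝ)) (fun k => ?_)
    (integrable_const _) (fun k => ?_) hpt
  · exact (map_continuous (fourier _)).aestronglyMeasurable
  · exact Eventually.of_forall fun x => (norm_fourier _ x).le

lemma rigid_trace {μ : Measure UnitAddCircle} [IsProbabilityMeasure μ] (hi : Inv μ)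
    (h : Thin μ (fun k => k)) :
    ∃ m : ℕ → ℕ, StrictMono m ∧ ∀ j : ℕ → ℤ,
      (∀ k, |(j k : ℝ)| ≤ Real.exp (Real.log (m k) ^ k)) →
      ∀ g : G, sl g = 1 → ∀ x y : G,
        Tendsto (fun k => traceOf μ (x * g ^ (j k * m k) * y)) atTop (𝓝 (traceOf μ (x * y))) := by
  obtain ⟨m, hm, h1⟩ := rigid_co h
  refine ⟨m, hm, fun j hj g hg x y => ?_⟩
  have hsl : ∀ N : ℤ, sl (x * g ^ N * y) = sl (x * y) := fun N => by
    rw [sl_mul, sl_mul, (zpow_elt hg N).1, sl_mul, mul_one]
  by_cases hs : sl (x * y) = 1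
  · have hof : ∀ N : ℤ, of (x * g ^ N * y) = of (x * y) + N * (sl x * of g) := fun N => by
      rw [mul_assoc, of_mul, of_mul, (zpow_elt hg N).1, (zpow_elt hg N).2, of_mul]
      ring
    have hc : of (x * g * x⁻¹) = sl x * of g := by
      rw [of_mul, of_mul, sl_mul, hg, of_inv]
      have := (sl_pos x).ne'
      field_simp
      ring
    obtain ⟨b, K1, hb⟩ := of_six (x * y)
    obtain ⟨a, K2, ha⟩ := of_six (x * g * x⁻¹)
    rw [hc] at ha
    have key : ∀ N : ℤ, traceOf μ (x * g ^ N * y) = co μ (b * 6 ^ K2 + N * (a * 6 ^ K1)) := by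
      intro N
      rw [traceOf, if_pos ((hsl N).trans hs), hof, hb, ha,
        val_eq hi (n := b * 6 ^ K2 + N * (a * 6 ^ K1)) (k := K1 + K2)]
      push_cast
      field_simp
      rw [pow_add]
      ring
    have key0 : traceOf μ (x * y) = co μ (b * 6 ^ K2) := by
      have := key 0
      simpa using this
    rw [key0]
    refine (h1 j hj (a * 6 ^ K1) (b * 6 ^ K2)).congr fun k => ?_
    rw [key]
  · have : ∀ N : ℤ, traceOf μ (x * g ^ N * y) = traceOf μ (x * y) := fun N => by
      rw [traceOf, traceOf, if_neg (by rw [hsl]; exact hs), if_neg hs]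
    simp_rw [this]
    exact tendsto_const_nhds

end Pool.Agent.U946.TD
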