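import Pool.Agent.U106.TR.Exc
import Pool.Agent.U946.TD.NR

/-!
The traces of `ℤ² ⋉ ℤ[1/6]` which come from measures with `Spread` and `Thin` of
`MP_96e181_an.NonRigidOrThin` (helper161): the dictionary is the one of helper106 (`U106.TR`).
-/

set_option autoImplicit false

open MeasureTheory Filter Topology Set

namespace Pool.Agent.U946.TD

open Pool.Agent.U106.FC Pool.Agent.U106.TR
open Pool.Agent.W763.Tr (Six)
open Pool.Agent.U946.TD.NR (Spread Thin fourier_of)

lemma zpow_elt {g : G} (hg : sl g = 1) (n : ℤ) : sl (g ^ n) = 1 ∧ of (g ^ n) = n * of g := by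
  have key : ∀ k : ℕ, sl (g ^ k) = 1 ∧ of (g ^ k) = k * of g := by
    intro k
    induction k with
    | zero => simp [sl_one, of_one]
    | succ k ih =>
      rw [pow_succ, sl_mul, of_mul, hg, ih.1, ih.2]
      constructor
      · norm_num
      · push_cast; ring
  cases n with
  | ofNat k =>
    have h := key k
    rw [Int.ofNat_eq_natCast, zpow_natCast]
    refine ⟨h.1, ?_⟩
    rw [h.2]
    simp
  | negSucc k =>
    have h := key (k + 1)
    rw [zpow_negSucc, sl_inv, of_inv, h.1, h.2]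
    constructor
    · norm_num
    · rw [Int.cast_negSucc]
      push_cast
      ring

/-- the integer attached to a translation -/
lemma exists_int {g : G} (hg : sl g = 1) (hg1 : g ≠ 1) :
    ∃ (a : ℤ) (k : ℕ), a ≠ 0 ∧ of g = a / 6 ^ k := by
  obtain ⟨a, k, h⟩ := of_six g
  refine ⟨a, k, ?_, h⟩
  rintro rfl
  apply hg1
  apply ext'
  · rw [hg, sl_one]
  · rw [h, of_one]; simp

lemma traceOf_zpow {μ : Measure UnitAddCircle} (hi : Inv μ) {g : G} (hg : sl g = 1) {a : ℤ} {k : ℕ}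
    (h : of g = a / 6 ^ k) (n : ℤ) : traceOf μ (g ^ n) = co μ (n * a) := by
  obtain ⟨h1, h2⟩ := zpow_elt hg n
  rw [traceOf, if_pos h1, h2, val_eq hi (n := n * a) (k := k) (by rw [h]; push_cast; ring)]

lemma log_ge_one {n : ℤ} (hn : n ≠ 0) : 1 ≤ Real.log (|(n : ℝ)| + 2) := by
  have h1 : (1 : ℝ) ≤ |(n : ℝ)| := by
    have : 1 ≤ |n| := Int.one_le_abs hn
    exact_mod_cast this
  rw [Real.le_log_iff_exp_le (by linarith)]
  have := Real.exp_one_lt_d9
  linarith

lemma log_mul_le {a n : ℤ} (hn : n ≠ 0) :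
    Real.log (|((n * a : ℤ) : ℝ)| + 2) ≤
      (Real.log (|(a : ℝ)| + 2) + 1) * Real.log (|(n : ℝ)| + 2) := by
  have h1 := log_ge_one hn
  have ha : (0 : ℝ) ≤ |(a : ℝ)| := abs_nonneg _
  have hn' : (0 : ℝ) ≤ |(n : ℝ)| := abs_nonneg _
  have h2 : |((n * a : ℤ) : ℝ)| + 2 ≤ (|(a : ℝ)| + 2) * (|(n : ℝ)| + 2) := by
    push_cast
    rw [abs_mul]
    nlinarith
  have h3 : Real.log (|((n * a : ℤ) : ℝ)| + 2) ≤
      Real.log (|(a : ℝ)| + 2) + Real.log (|(n : ℝ)| + 2) := by
    rw [← Real.log_mul (by linarith) (by linarith)]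
    exact Real.log_le_log (by positivity) h2
  have h4 : 0 ≤ Real.log (|(a : ℝ)| + 2) := Real.log_nonneg (by linarith)
  nlinarith

/-- transfer of a lower bound from `n * a` to `n` -/
lemma transfer {a : ℤ} (ha : a ≠ 0) {κ c : ℝ} (hκ : 0 < κ) (hc : 0 < c) {F : ℤ → ℝ}
    (h : ∀ n : ℤ, n ≠ 0 → c * Real.log (|(n : ℝ)| + 2) ^ (-κ) ≤ F n) :
    ∃ c' : ℝ, 0 < c' ∧ ∀ n : ℤ, n ≠ 0 →
      c' * Real.log (|(n : ℝ)| + 2) ^ (-κ) ≤ F (n * a) := by
  have ha0 : (0 : ℝ) ≤ |(a : ℝ)| := abs_nonneg _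
  have hK : 0 < Real.log (|(a : ℝ)| + 2) + 1 := by
    have : 0 ≤ Real.log (|(a : ℝ)| + 2) := Real.log_nonneg (by linarith)
    linarith
  refine ⟨c * (Real.log (|(a : ℝ)| + 2) + 1) ^ (-κ), by positivity, fun n hn => ?_⟩
  refine le_trans ?_ (h (n * a) (mul_ne_zero hn ha))
  rw [mul_assoc, ← Real.mul_rpow hK.le (by linarith [log_ge_one hn])]
  refine mul_le_mul_of_nonneg_left ?_ hc.le
  refine Real.rpow_le_rpow_of_nonpos ?_ (log_mul_le hn) (by linarith)
  linarith [log_ge_one (mul_ne_zero hn ha)]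

/-- `‖P(g ^ n)‖₂ ^ 2` -/
noncomputable def sq (φ : G → ℂ) (P : Polynomial ℂ) (g : G) (n : ℤ) : ℂ :=
  ∑ i ∈ P.support, ∑ j ∈ P.support, P.coeff i * star (P.coeff j) * φ (g ^ (n * ((i : ℤ) - j)))

lemma integral_sq {μ : Measure UnitAddCircle} [IsProbabilityMeasure μ] (P : Polynomial ℂ) (N : ℤ) :
    (∑ i ∈ P.support, ∑ j ∈ P.support, P.coeff i * star (P.coeff j) *
      co μ (N * ((i : ℤ) - j))).re =
    ∫ x, ‖P.eval (fourier N x : ℂ)‖ ^ 2 ∂μ := by
  have hint : ∀ n : ℤ, Integrable (fun x : UnitAddCircle => (fourier n x : ℂ)) μ := fun n =>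
    (map_continuous (fourier n)).integrable_of_hasCompactSupport
      (HasCompactSupport.of_compactSpace _)
  have h1 : ∀ x : UnitAddCircle, ((‖P.eval (fourier N x : ℂ)‖ ^ 2 : ℝ) : ℂ) =
      ∑ i ∈ P.support, ∑ j ∈ P.support, P.coeff i * star (P.coeff j) *
        (fourier (N * ((i : ℤ) - j)) x : ℂ) := by
    intro x
    have h2 : ((‖P.eval (fourier N x : ℂ)‖ ^ 2 : ℝ) : ℂ) =
        P.eval (fourier N x : ℂ) * star (P.eval (fourier N x : ℂ)) := by
      rw [Complex.star_def, Complex.mul_conj, Complex.normSq_eq_norm_sq]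
    rw [h2, Polynomial.eval_eq_sum, Polynomial.sum, star_sum, Finset.sum_mul_sum]
    refine Finset.sum_congr rfl fun i _ => Finset.sum_congr rfl fun j _ => ?_
    have h3 : (fourier (N * ((i : ℤ) - j)) x : ℂ) =
        (fourier N x : ℂ) ^ i * star ((fourier N x : ℂ) ^ j) := by
      have e1 : ∀ k : ℕ, (fourier (N * (k : ℤ)) x : ℂ) = (fourier N x : ℂ) ^ k := by
        intro k
        induction k with
        | zero => simp
        | succ k ih =>
          rw [pow_succ, ← ih, ← fourier_add]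
          congr 2
          push_cast
          ring
      have e2 : N * ((i : ℤ) - j) = N * (i : ℤ) + -(N * (j : ℤ)) := by ring
      rw [e2, fourier_add, fourier_neg, e1, e1]
      rfl
    rw [h3, star_mul']
    ring
  have h4 : ((∫ x, ‖P.eval (fourier N x : ℂ)‖ ^ 2 ∂μ : ℝ) : ℂ) =
      ∑ i ∈ P.support, ∑ j ∈ P.support, P.coeff i * star (P.coeff j) *
        co μ (N * ((i : ℤ) - j)) := by
    rw [← integral_complex_ofReal]
    simp_rw [h1]
    rw [integral_finsetSum]
    · refine Finset.sum_congr rfl fun i _ => ?_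
      rw [integral_finsetSum]
      · refine Finset.sum_congr rfl fun j _ => ?_
        rw [integral_const_mul]
        rfl
      · exact fun j _ => (hint _).const_mul _
    · exact fun i _ => integrable_finsetSum _ fun j _ => (hint _).const_mul _
  rw [← h4, Complex.ofReal_re]

/-- the lower bound for polynomials -/
lemma poly_of {μ : Measure UnitAddCircle} [IsProbabilityMeasure μ] {κ : ℝ} (h : Spread μ κ)
    {P : Polynomial ℂ} (hP : P ≠ 0) : ∃ c : ℝ, 0 < c ∧ ∀ n : ℤ, n ≠ 0 →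
      c * Real.log (|(n : ℝ)| + 2) ^ (-κ) ≤
        (∑ i ∈ P.support, ∑ j ∈ P.support, P.coeff i * star (P.coeff j) *
          co μ (n * ((i : ℤ) - j))).re := by
  -- a point of the circle which is not a root
  obtain ⟨y, hy⟩ : ∃ y : UnitAddCircle, P.eval (fourier 1 y : ℂ) ≠ 0 := by
    by_contra hcon
    push Not at hcon
    have hinj : Function.Injective (fun y : UnitAddCircle => (fourier 1 y : ℂ)) := by
      intro y z hyz
      simp only [fourier_apply, one_smul] at hyz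
      exact AddCircle.injective_toCircle one_ne_zero (Circle.ext hyz)
    have hfin : (Set.range fun y : UnitAddCircle => (fourier 1 y : ℂ)).Finite := by
      refine (P.roots.toFinset.finite_toSet).subset ?_
      rintro z ⟨y, rfl⟩
      simp only [Finset.mem_coe, Multiset.mem_toFinset]
      exact (Polynomial.mem_roots hP).2 (hcon y)
    have : Infinite UnitAddCircle := by
      have h1 : Infinite (Set.Ico (0 : ℝ) (0 + 1)) := Set.infinite_coe_iff.2 (Set.Ico_infinite (by norm_num))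
      exact Infinite.of_injective _ (AddCircle.equivIco 1 0).symm.injective
    exact Set.infinite_range_of_injective hinj hfin
  obtain ⟨δ, hδ⟩ : ∃ δ : ℝ, δ = ‖P.eval (fourier 1 y : ℂ)‖ ^ 2 / 2 := ⟨_, rfl⟩
  have hn : 0 < ‖P.eval (fourier 1 y : ℂ)‖ := norm_pos_iff.2 hy
  have hδ0 : 0 < δ := by rw [hδ]; positivity
  have hcont : Continuous (fun y : UnitAddCircle => ‖P.eval (fourier 1 y : ℂ)‖ ^ 2) := by
    have h1 : Continuous (fun y : UnitAddCircle => (fourier 1 y : ℂ)) := map_continuous _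
    exact (P.continuous.comp h1).norm.pow 2
  obtain ⟨c, hc, h1⟩ := h {z | δ < ‖P.eval (fourier 1 z : ℂ)‖ ^ 2}
    (isOpen_lt continuous_const hcont) ⟨y, by
      show δ < ‖P.eval (fourier 1 y : ℂ)‖ ^ 2
      rw [hδ]
      have : 0 < ‖P.eval (fourier 1 y : ℂ)‖ ^ 2 := by positivity
      linarith⟩
  refine ⟨δ * c, by positivity, fun n hn0 => ?_⟩
  rw [integral_sq]
  have hf1 : ∀ x : UnitAddCircle, (fourier 1 (n • x) : ℂ) = fourier n x := fun x => by
    rw [fourier_apply, fourier_apply, one_smul]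
  have hc2 : Continuous (fun x : UnitAddCircle => ‖P.eval (fourier n x : ℂ)‖ ^ 2) := by
    have h1 : Continuous (fun y : UnitAddCircle => (fourier n y : ℂ)) := map_continuous _
    exact (P.continuous.comp h1).norm.pow 2
  have hint2 : Integrable (fun x : UnitAddCircle => ‖P.eval (fourier n x : ℂ)‖ ^ 2) μ :=
    hc2.integrable_of_hasCompactSupport (HasCompactSupport.of_compactSpace _)
  have hnn : 0 ≤ᵐ[μ] fun x : UnitAddCircle => ‖P.eval (fourier n x : ℂ)‖ ^ 2 :=
    Eventually.of_forall fun x => by positivity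
  have hM := mul_meas_ge_le_integral_of_nonneg hnn hint2 δ
  have h5 : μ.real {x : UnitAddCircle | n • x ∈ {z | δ < ‖P.eval (fourier 1 z : ℂ)‖ ^ 2}} ≤
      μ.real {x | δ ≤ ‖P.eval (fourier n x : ℂ)‖ ^ 2} := by
    refine measureReal_mono ?_ (measure_ne_top _ _)
    intro x hx
    have e1 : δ < ‖P.eval (fourier 1 (n • x) : ℂ)‖ ^ 2 := hx
    rw [hf1] at e1
    exact e1.le
  have h6 := h1 n hn0
  calc δ * c * Real.log (|(n : ℝ)| + 2) ^ (-κ) = δ * (c * Real.log (|(n : ℝ)| + 2) ^ (-κ)) := by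
        ring
    _ ≤ δ * μ.real {x | δ ≤ ‖P.eval (fourier n x : ℂ)‖ ^ 2} :=
        mul_le_mul_of_nonneg_left (h6.trans h5) hδ0.le
    _ ≤ _ := hM

end Pool.Agent.U946.TD
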